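import Pool.Agent.helper17.PR.B
import Pool.Agent.helper40.PR.F

/-!
PR project (MP_15abe0_co), module [I]: the types of `z`.
-/

set_option autoImplicit false

namespace Pool.Agent.helper1.PR

open Finset

private theorem cube_re (z : ℤ√2) : (z ^ 3).re = z.re ^ 3 + 6 * z.re * z.im ^ 2 := by
  simp only [pow_succ, pow_zero, one_mul, Zsqrtd.re_mul, Zsqrtd.im_mul]
  ring

private theorem cube_im (z : ℤ√2) : (z ^ 3).im = 3 * z.re ^ 2 * z.im + 2 * z.im ^ 3 := by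
  simp only [pow_succ, pow_zero, one_mul, Zsqrtd.re_mul, Zsqrtd.im_mul]
  ring

private theorem real_re {A B s v L δ : ℝ} (hL : 0 < L) (hs : 1 ≤ s) (hv : 0 ≤ v)
    (f1 : v * L ≤ A * s) (f2 : A * s ≤ (v + 1) * L) (f3 : B * s ≤ L) (g1 : 2 * L ≤ A)
    (g2 : A ≤ 4 * L) (g3 : 0 ≤ B) (w1 : v ^ 3 ≤ 16 * s ^ 3) (w2 : 16 * s ^ 3 ≤ (v + 1) ^ 3)
    (w3 : v ≤ 3 * s) (hδ : 61 ≤ 8 * δ * s) :
    |A ^ 3 + 6 * A * B ^ 2 - 2 * (2 * L) ^ 3| ≤ δ * (2 * L) ^ 3 := by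
  have hA : 0 ≤ A := by linarith
  have hs0 : 0 < s := by linarith
  have hs3 : 0 < s ^ 3 := by positivity
  have hAs : 0 ≤ A * s := by positivity
  have hBs : 0 ≤ B * s := by positivity
  have k1 : (v * L) ^ 3 ≤ (A * s) ^ 3 := by gcongr
  have k2 : (A * s) ^ 3 ≤ ((v + 1) * L) ^ 3 := by gcongr
  have k3 : (3 * v ^ 2 + 3 * v + 1) ≤ 37 * s ^ 2 := by nlinarith
  have k4 : 6 * (A * s) * (B * s) ^ 2 ≤ 24 * s ^ 2 * L ^ 3 := by
    have h1 : (B * s) ^ 2 ≤ L ^ 2 := by gcongr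
    have h5 : A * s ≤ 4 * L * s ^ 2 := by nlinarith
    calc 6 * (A * s) * (B * s) ^ 2 ≤ 6 * (4 * L * s ^ 2) * L ^ 2 := by gcongr
      _ = 24 * s ^ 2 * L ^ 3 := by ring
  have k5 : 0 ≤ 6 * (A * s) * (B * s) ^ 2 := by positivity
  have hL3 : 0 < L ^ 3 := by positivity
  have k6 : (v * L) ^ 3 ≤ 16 * s ^ 3 * L ^ 3 := by
    rw [mul_pow]; gcongr
  have k7 : 16 * s ^ 3 * L ^ 3 ≤ ((v + 1) * L) ^ 3 := by
    rw [mul_pow]; gcongr
  have k8 : ((v + 1) * L) ^ 3 - (v * L) ^ 3 ≤ 37 * s ^ 2 * L ^ 3 := by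
    have : ((v + 1) * L) ^ 3 - (v * L) ^ 3 = (3 * v ^ 2 + 3 * v + 1) * L ^ 3 := by ring
    rw [this]; gcongr
  have key : |(A * s) ^ 3 + 6 * (A * s) * (B * s) ^ 2 - 16 * s ^ 3 * L ^ 3| ≤
      61 * s ^ 2 * L ^ 3 := by
    rw [abs_le]
    have : 0 ≤ s ^ 2 * L ^ 3 := by positivity
    constructor <;> linarith
  have e : (A ^ 3 + 6 * A * B ^ 2 - 2 * (2 * L) ^ 3) * s ^ 3 =
      (A * s) ^ 3 + 6 * (A * s) * (B * s) ^ 2 - 16 * s ^ 3 * L ^ 3 := by ring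
  have e' : |A ^ 3 + 6 * A * B ^ 2 - 2 * (2 * L) ^ 3| * s ^ 3 ≤ 61 * s ^ 2 * L ^ 3 := by
    have : |A ^ 3 + 6 * A * B ^ 2 - 2 * (2 * L) ^ 3| * s ^ 3 =
        |(A ^ 3 + 6 * A * B ^ 2 - 2 * (2 * L) ^ 3) * s ^ 3| := by
      rw [abs_mul, abs_of_pos hs3]
    rw [this, e]; exact key
  have fin : 61 * s ^ 2 * L ^ 3 ≤ (δ * (2 * L) ^ 3) * s ^ 3 := by
    have : (δ * (2 * L) ^ 3) * s ^ 3 = (8 * δ * s) * (s ^ 2 * L ^ 3) := by ring
    rw [this]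
    have : 61 * s ^ 2 * L ^ 3 = 61 * (s ^ 2 * L ^ 3) := by ring
    rw [this]; gcongr
  exact le_of_mul_le_mul_right (e'.trans fin) hs3

private theorem real_im {A B s L δ : ℝ} (hL : 0 < L) (hs : 1 ≤ s)
    (f3 : B * s ≤ L) (g1 : 2 * L ≤ A)
    (g2 : A ≤ 4 * L) (g3 : 0 ≤ B) (g4 : B ≤ L) (hδ : 61 ≤ 8 * δ * s) :
    |3 * A ^ 2 * B + 2 * B ^ 3| ≤ δ * (2 * L) ^ 3 := by
  have hA0 : 0 ≤ A := by linarith
  have hs0 : 0 < s := by linarith
  have hBs : 0 ≤ B * s := by positivity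
  have hn : 0 ≤ 3 * A ^ 2 * B + 2 * B ^ 3 := by positivity
  rw [abs_of_nonneg hn]
  have key : (3 * A ^ 2 * B + 2 * B ^ 3) * s ≤ 50 * L ^ 3 := by
    calc (3 * A ^ 2 * B + 2 * B ^ 3) * s = 3 * A ^ 2 * (B * s) + 2 * B ^ 2 * (B * s) := by ring
      _ ≤ 3 * (4 * L) ^ 2 * L + 2 * L ^ 2 * L := by gcongr
      _ = 50 * L ^ 3 := by ring
  have fin : 50 * L ^ 3 ≤ (δ * (2 * L) ^ 3) * s := by
    have : (δ * (2 * L) ^ 3) * s = (8 * δ * s) * L ^ 3 := by ring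
    rw [this]; gcongr; linarith
  exact le_of_mul_le_mul_right (key.trans fin) hs0

/-- a small square near `(2 · 2^(1/3), 0)` -/
theorem exists_cell {δ : ℝ} (hδ : 0 < δ) : ∃ s v : ℕ, 0 < s ∧ 2 * s ≤ v ∧ v < 4 * s ∧
    ∀ L : ℕ, 0 < L → ∀ z ∈ box L, z.re * s / L = v → z.im * s / L = 0 →
      Near δ (2 * L) z := by
  obtain ⟨s, hs⟩ := exists_nat_gt (61 / (8 * δ))
  have hs0 : 0 < s := by
    have : (0 : ℝ) < s := lt_trans (by positivity) hs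
    exact_mod_cast this
  have hs1 : (61 : ℝ) ≤ 8 * δ * s := by
    rw [div_lt_iff₀ (by positivity)] at hs
    linarith
  set v := Nat.findGreatest (fun v => v ^ 3 ≤ 16 * s ^ 3) (4 * s) with hv
  have hv1 : v ^ 3 ≤ 16 * s ^ 3 :=
    Nat.findGreatest_spec (P := fun v => v ^ 3 ≤ 16 * s ^ 3) (m := 0) (Nat.zero_le _) (by simp)
  have hv2 : 2 * s ≤ v := by
    apply Nat.le_findGreatest (by omega)
    rw [mul_pow]; gcongr; norm_num
  have hv3 : v < 3 * s := by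
    by_contra h
    push Not at h
    have := Nat.pow_le_pow_left h 3
    rw [mul_pow] at this
    have h3 : 0 < s ^ 3 := by positivity
    omega
  have hv4 : 16 * s ^ 3 < (v + 1) ^ 3 := by
    by_contra h
    push Not at h
    have := Nat.le_findGreatest (P := fun v => v ^ 3 ≤ 16 * s ^ 3) (n := 4 * s) (m := v + 1)
      (by omega) h
    omega
  refine ⟨s, v, hs0, hv2, by omega, ?_⟩
  intro L hL z hz h1 h2
  have hL' : (0 : ℤ) < L := by exact_mod_cast hL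
  rw [mem_box] at hz
  obtain ⟨⟨ha1, ha2⟩, hb1, hb2⟩ := hz
  have e1 : (v : ℤ) * L ≤ z.re * s := by
    have := Int.ediv_mul_le (z.re * s) (ne_of_gt hL')
    rw [h1] at this; exact this
  have e2 : z.re * s < (v + 1) * L := by
    have := Int.lt_ediv_add_one_mul_self (z.re * s) hL'
    rw [h1] at this; exact this
  have e3 : z.im * s < L := by
    have := Int.lt_ediv_add_one_mul_self (z.im * s) hL'
    rw [h2] at this; simpa using this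
  -- to the reals
  have f1 : (v : ℝ) * L ≤ (z.re : ℝ) * s := by exact_mod_cast e1
  have f2 : (z.re : ℝ) * s ≤ (v + 1) * L := by exact_mod_cast e2.le
  have f3 : (z.im : ℝ) * s ≤ L := by exact_mod_cast e3.le
  have g1 : 2 * (L : ℝ) ≤ z.re := by exact_mod_cast ha1
  have g2 : (z.re : ℝ) ≤ 4 * L := by exact_mod_cast ha2.le
  have g3 : (0 : ℝ) ≤ z.im := by exact_mod_cast hb1
  have g4 : (z.im : ℝ) ≤ L := by exact_mod_cast hb2.le
  have hLr : (0 : ℝ) < L := by exact_mod_cast hL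
  have hsr : (1 : ℝ) ≤ s := by exact_mod_cast hs0
  have w1 : (v : ℝ) ^ 3 ≤ 16 * s ^ 3 := by exact_mod_cast hv1
  have w2 : 16 * (s : ℝ) ^ 3 ≤ (v + 1) ^ 3 := by exact_mod_cast hv4.le
  have w3 : (v : ℝ) ≤ 3 * s := by exact_mod_cast hv3.le
  constructor
  · rw [cube_re]
    push_cast
    exact real_re hLr hsr (Nat.cast_nonneg _) f1 f2 f3 g1 g2 g3 w1 w2 w3 hs1
  · rw [cube_im]
    push_cast
    exact real_im hLr hsr f3 g1 g2 g3 g4 hs1

private theorem mean_zero {m : (S → ℝ) → ℝ} (hm : IsMean m) : m (fun _ => 0) = 0 := by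
  have := hm.smul 0 (fun _ => 1) ⟨1, by intro s; simp⟩
  simpa using this

private theorem bd_sum {ι : Type*} (I : Finset ι) (F : ι → S → ℝ) (h : ∀ i ∈ I, Bd (F i)) :
    Bd (fun s => ∑ i ∈ I, F i s) := by
  classical
  induction I using Finset.induction_on with
  | empty => exact ⟨0, by intro s; simp⟩
  | insert a I ha ih =>
    obtain ⟨C, hC⟩ := ih (fun i hi => h i (mem_insert_of_mem hi))
    obtain ⟨D, hD⟩ := h a (mem_insert_self _ _)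
    refine ⟨D + C, fun s => ?_⟩
    simp only [sum_insert ha]
    exact (abs_add_le _ _).trans (add_le_add (hD s) (hC s))

private theorem mean_sum {m : (S → ℝ) → ℝ} (hm : IsMean m) {ι : Type*} (I : Finset ι)
    (F : ι → S → ℝ) (h : ∀ i ∈ I, Bd (F i)) :
    m (fun s => ∑ i ∈ I, F i s) = ∑ i ∈ I, m (F i) := by
  classical
  induction I using Finset.induction_on with
  | empty => simpa using mean_zero hm
  | insert a I ha ih =>
    simp only [sum_insert ha]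
    rw [← ih (fun i hi => h i (mem_insert_of_mem hi))]
    exact hm.add _ _ (h a (mem_insert_self _ _))
      (bd_sum I F (fun i hi => h i (mem_insert_of_mem hi)))

private theorem mdens_fc_nonneg {r : ℕ} (c : ℤ√2 → Fin r) (i : Fin r) (κ L : ℕ) :
    0 ≤ mdens L (fc c i κ) := by
  unfold mdens
  refine div_nonneg (sum_nonneg fun x _ => ?_) (Nat.cast_nonneg _)
  unfold fc; split_ifs <;> norm_num

private theorem mdens_fc_le {r : ℕ} (c : ℤ√2 → Fin r) (i : Fin r) (κ L : ℕ) :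
    mdens L (fc c i κ) ≤ 1 := by
  unfold mdens
  refine div_le_one_of_le₀ ?_ (Nat.cast_nonneg _)
  rw [card_eq_sum_ones, Nat.cast_sum]
  refine sum_le_sum fun x _ => ?_
  unfold fc; split_ifs <;> norm_num

private theorem bd_mdens {r : ℕ} (c : ℤ√2 → Fin r) (i : Fin r) :
    Bd (fun s : S => mdens s.2 (fc c i s.1)) :=
  ⟨1, fun s => by rw [abs_of_nonneg (mdens_fc_nonneg c i _ _)]; exact mdens_fc_le c i _ _⟩

open Classical in
theorem full_z {m : (S → ℝ) → ℝ} (hm : IsMean m) {r : ℕ} (c : ℤ√2 → Fin r) (K : ℕ) {δ : ℝ}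
    (hδ : 0 < δ) {Q2 : ℕ} (hQ2 : 0 < Q2) :
    Full m {t : S | ∃ i, 0 < m (fun s => mdens s.2 (fc c i s.1)) ∧
      ∃ Z : Finset (ℤ√2), #Z = K ∧ ∀ z ∈ Z, z ∈ box t.2 ∧ Near δ (2 * t.2) z ∧
        (Q2 : ℤ) ∣ z.re ∧ (Q2 : ℤ) ∣ z.im - 1 ∧ c (((t.1 : ℕ) : ℤ√2) * z) = i} := by
  obtain ⟨s, v, hs, hv1, hv2, hcell⟩ := exists_cell hδ
  set D : Finset (Fin r) := {i | 0 < m (fun s => mdens s.2 (fc c i s.1))} with hD
  set F : S → ℝ := fun t => ∑ i ∈ Dᶜ, mdens t.2 (fc c i t.1) with hF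
  have hFB : Bd F := bd_sum _ _ (fun i _ => bd_mdens c i)
  have hF0 : ∀ t, 0 ≤ F t := fun t => sum_nonneg fun i _ => mdens_fc_nonneg c i _ _
  have hmF : m F = 0 := by
    rw [hF, mean_sum hm _ _ (fun i _ => bd_mdens c i)]
    refine sum_eq_zero fun i hi => ?_
    rw [mem_compl, hD, mem_filter, not_and] at hi
    have h1 := hi (mem_univ _)
    push Not at h1
    refine le_antisymm h1 ?_
    rw [← mean_zero hm]
    exact hm.mono _ _ ⟨0, by intro s; simp⟩ (bd_mdens c i) (fun t => mdens_fc_nonneg c i _ _)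
  have hpos : (0 : ℝ) < 1 / (4 * (Q2 : ℝ) ^ 2 * s ^ 2) := by positivity
  have full1 := Full.inter hm (Full.inter hm (full_dvd hm (D := Q2 * s) (by positivity))
    (full_ge hm (Q2 * s * (2 * r * K + 1)))) (full_of_mean_zero hm hFB hF0 hmF hpos)
  refine Full.mono hm full1 ?_
  rintro t ⟨⟨h1, h2⟩, h3⟩
  simp only [Set.mem_ofPred_eq] at h1 h2 h3 ⊢
  set L : ℕ := (t.2 : ℕ) with hL
  have hL0 : 0 < L := t.2.pos
  by_contra hcon
  push Not at hcon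
  set C : Finset (ℤ√2) := {x ∈ box L | lab Q2 s L x = (0, 1 % (Q2 : ℤ), (v : ℤ), 0)} with hC
  have hQ : (0 : ℤ) < Q2 := by exact_mod_cast hQ2
  have hcard : #C = (L / (Q2 * s)) ^ 2 := by
    refine card_cell hQ2 hs hL0 h1 ?_
    simp only [labs, mem_product, mem_Ico]
    refine ⟨⟨le_refl _, hQ⟩, ⟨Int.emod_nonneg _ hQ.ne', Int.emod_lt_of_pos _ hQ⟩,
      ⟨by exact_mod_cast hv1, by exact_mod_cast hv2⟩, le_refl _, by exact_mod_cast hs⟩
  have hCz : ∀ z ∈ C, z ∈ box L ∧ Near δ (2 * L) z ∧ (Q2 : ℤ) ∣ z.re ∧ (Q2 : ℤ) ∣ z.im - 1 := by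
    intro z hz
    rw [hC, mem_filter] at hz
    obtain ⟨hz1, hz2⟩ := hz
    simp only [lab, Prod.mk.injEq] at hz2
    obtain ⟨k1, k2, k3, k4⟩ := hz2
    exact ⟨hz1, hcell L hL0 z hz1 k3 k4, Int.dvd_of_emod_eq_zero k1, Int.ModEq.dvd k2.symm⟩
  -- every colour of positive mean has few elements in the cell
  have hfew : ∀ i ∈ D, #{z ∈ C | c (((t.1 : ℕ) : ℤ√2) * z) = i} ≤ K := by
    intro i hi
    by_contra hlt
    push Not at hlt
    obtain ⟨Z, hZ1, hZ2⟩ := exists_subset_card_eq hlt.le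
    rw [hD, mem_filter] at hi
    obtain ⟨z, hz, hz'⟩ := hcon i hi.2 Z hZ2
    have hz3 := hZ1 hz
    rw [mem_filter] at hz3
    obtain ⟨q1, q2, q3, q4⟩ := hCz z hz3.1
    exact hz' q1 q2 q3 q4 hz3.2
  have hsum1 : #C = ∑ i : Fin r, #{z ∈ C | c (((t.1 : ℕ) : ℤ√2) * z) = i} :=
    card_eq_sum_card_fiberwise (fun z _ => mem_univ _)
  have hsum2 : (#C : ℝ) = ∑ i ∈ D, (#{z ∈ C | c (((t.1 : ℕ) : ℤ√2) * z) = i} : ℝ) +
      ∑ i ∈ Dᶜ, (#{z ∈ C | c (((t.1 : ℕ) : ℤ√2) * z) = i} : ℝ) := by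
    rw [sum_add_sum_compl, hsum1]; push_cast; rfl
  have b1 : ∑ i ∈ D, (#{z ∈ C | c (((t.1 : ℕ) : ℤ√2) * z) = i} : ℝ) ≤ r * K := by
    calc _ ≤ ∑ i ∈ D, (K : ℝ) := sum_le_sum fun i hi => by exact_mod_cast hfew i hi
      _ = #D * K := by rw [sum_const, nsmul_eq_mul]
      _ ≤ r * K := by
        gcongr
        exact (card_le_univ D).trans (by simp)
  have b2 : ∑ i ∈ Dᶜ, (#{z ∈ C | c (((t.1 : ℕ) : ℤ√2) * z) = i} : ℝ) ≤ F t * (2 * (L : ℝ) ^ 2) := by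
    rw [hF]
    simp only []
    rw [sum_mul]
    refine sum_le_sum fun i _ => ?_
    have hbox : (#(box L) : ℝ) = 2 * (L : ℝ) ^ 2 := by rw [card_box]; push_cast; ring
    unfold mdens
    rw [← hL, hbox, div_mul_cancel₀ _ (by positivity)]
    rw [card_eq_sum_ones, Nat.cast_sum, ← sum_filter_add_sum_filter_not (box L)
      (fun z => z ∈ C ∧ c (((t.1 : ℕ) : ℤ√2) * z) = i)]
    have e1 : {z ∈ box L | z ∈ C ∧ c (((t.1 : ℕ) : ℤ√2) * z) = i} =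
        {z ∈ C | c (((t.1 : ℕ) : ℤ√2) * z) = i} := by
      ext z
      simp only [mem_filter]
      constructor
      · rintro ⟨_, h, h'⟩; exact ⟨h, h'⟩
      · rintro ⟨h, h'⟩; exact ⟨(hCz z h).1, h, h'⟩
    rw [e1]
    have e2 : ∑ z ∈ {z ∈ C | c (((t.1 : ℕ) : ℤ√2) * z) = i}, ((1 : ℕ) : ℝ) ≤
        ∑ z ∈ {z ∈ C | c (((t.1 : ℕ) : ℤ√2) * z) = i}, fc c i t.1 z := by
      refine sum_le_sum fun z hz => ?_
      rw [mem_filter] at hz
      unfold fc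
      rw [if_pos hz.2]; simp
    have e3 : 0 ≤ ∑ z ∈ {z ∈ box L | ¬ (z ∈ C ∧ c (((t.1 : ℕ) : ℤ√2) * z) = i)},
        fc c i t.1 z := by
      refine sum_nonneg fun z _ => ?_
      unfold fc; split_ifs <;> norm_num
    linarith
  have hF2 : F t * (2 * (L : ℝ) ^ 2) ≤ (L : ℝ) ^ 2 / (2 * ((Q2 : ℝ) ^ 2 * s ^ 2)) := by
    calc F t * (2 * (L : ℝ) ^ 2) ≤ 1 / (4 * (Q2 : ℝ) ^ 2 * s ^ 2) * (2 * (L : ℝ) ^ 2) := by
          gcongr
      _ = (L : ℝ) ^ 2 / (2 * ((Q2 : ℝ) ^ 2 * s ^ 2)) := by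
          field_simp; ring
  obtain ⟨M, hM⟩ := h1
  have hQs : 0 < Q2 * s := by positivity
  have hcard' : (#C : ℝ) = (M : ℝ) ^ 2 := by
    rw [hcard, hM, Nat.mul_div_cancel_left _ hQs]; push_cast; ring
  have hL2 : (L : ℝ) ^ 2 / (2 * ((Q2 : ℝ) ^ 2 * s ^ 2)) = (M : ℝ) ^ 2 / 2 := by
    rw [hM]; push_cast; field_simp
  have hM1 : 2 * r * K + 1 ≤ M := by
    rw [hM] at h2
    exact Nat.le_of_mul_le_mul_left h2 hQs
  have hM2 : (2 * r * K + 1 : ℝ) ≤ M := by exact_mod_cast hM1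
  have hM3 : (M : ℝ) ≤ (M : ℝ) ^ 2 := by
    have : (1 : ℝ) ≤ M := by
      have : 0 ≤ (2 * r * K : ℝ) := by positivity
      linarith
    nlinarith
  rw [hL2] at hF2
  rw [hcard'] at hsum2
  linarith

end Pool.Agent.helper1.PR
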